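import Pool.Agent.Y130.GS.Zar

/-!
# Galois special points: proof
-/

set_option linter.unusedSectionVars false

open Module Finset Function

namespace Pool.Agent.Y130.GS

open Pool.Agent.Y130 Pool.Agent.Y130.MT Pool.Agent.TH125.Gal Pool.Agent.H204R3.GP

/-- The group of the point is contained in the group of the subvariety. -/
theorem monodromy_ge {K : Type} [Field K] {M : Type} [AddCommGroup M] [Module K M]
    [FiniteDimensional K M] {Γ : Type} [Group Γ] {τ : Representation K Γ M} {χ : Γ →* K}
    (Y : Subvariety τ χ) : monodromy τ ⊆ monodromy Y.rep := by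
  intro g hg Δ hΔ P hP
  have h1 : ((Δ.subgroupOf Y.dec).map Y.sp).FiniteIndex := by
    refine ⟨?_⟩
    rw [Subgroup.index_map]
    have h2 : (Δ.subgroupOf Y.dec ⊔ Y.sp.ker).FiniteIndex := Subgroup.finiteIndex_of_le le_sup_left
    exact mul_ne_zero h2.index_ne_zero Y.index.index_ne_zero
  refine hg _ h1 P ?_
  rintro _ ⟨t, ht, rfl⟩
  rw [← Y.rep_dec]
  exact hP _ ht

variable {K : Type} [Field K] [CharZero K] {T : Type} [AddCommGroup T]
  [Module K T] [FiniteDimensional K T] {V : Type}
  [AddCommGroup V] [Module K V] [FiniteDimensional K V] {E : Type} [AddCommGroup E] [Module K E]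
  [FiniteDimensional K E] {Γ : Type} [Group Γ] {C : Type} {χ : Γ →* K}
  {τ : Representation K Γ T} {ρ : Representation K Γ V} {σ : Representation K Γ E}
  {B : T →ₗ[K] T →ₗ[K] K} {U : C → Submodule K T} {star : C → C} {Δ : Subgroup Γ}
  {H : Γ → Subgroup Kˣ}

/-- The groups of the point and of the product families are the same. -/
theorem monodromy_eq [IsAlgClosed K] [Finite C] (ω : V × E →ₗ[K] V × E →ₗ[K] K)
    (hnd : ∀ x, (∀ y, ω x y = 0) → x = 0)
    (hω : ∀ s x y, ω (ρ.prod σ s x) (ρ.prod σ s y) = χ s * ω x y)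
    (hss : TensorSemisimple (ρ.prod σ)) (hdom : SummandOfCopies τ ρ)
    (h : IsolatedBlocks τ χ B U star Δ H) (hH : ContainsEigenvalues H χ σ)
    {Y : Subvariety (ρ.prod σ) χ} (hY : IsProductFamily ρ σ χ Y) :
    monodromy Y.rep = monodromy (ρ.prod σ) :=
  Set.Subset.antisymm
    (monodromy_le ω hnd hω hss fun _ _ _ _ hφ => transfer hdom h hH hY hφ) (monodromy_ge Y)

end Pool.Agent.Y130.GS
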