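import Pool.Agent.Y130.MT.Final

/-!
# The eigenvalues on multilinear forms
-/

set_option linter.unusedSectionVars false

open Module Finset Function

namespace Pool.Agent.Y130.GS

open Pool.Agent.Y130 Pool.Agent.Y130.MT Pool.Agent.TH118.SG

variable {K : Type} [Field K] {E : Type} [AddCommGroup E] [Module K E] {ι : Type} [Fintype ι]
  [DecidableEq ι] {Γ : Type} [Group Γ]

theorem form_gen_zero {f : End K E} {w : MultilinearMap K (fun _ : ι => E) K} {lam : K}
    (hw : ∀ e : ι → E, w (fun l => f (e l)) = lam * w e) :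
    ∀ (N : ℕ) (α : ι → K) (k : ι → ℕ) (e : ι → E),
      (∀ l, ((f - algebraMap K (End K E) (α l)) ^ k l) (e l) = 0) → ∑ l, k l = N →
      lam ≠ ∏ l, α l → w e = 0 := by
  intro N
  induction N using Nat.strong_induction_on with
  | _ N ih =>
    intro α k e he hN hlam
    by_cases h0 : ∃ l, k l = 0
    · obtain ⟨l, hl⟩ := h0
      have h1 := he l
      rw [hl, pow_zero, Module.End.one_apply] at h1
      exact w.map_coord_zero l h1
    push Not at h0
    have h1 : (fun l => f (e l)) = (fun l => α l • e l) +
        (fun l => (f - algebraMap K (End K E) (α l)) (e l)) := by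
      funext l
      rw [Pi.add_apply, LinearMap.sub_apply, Module.algebraMap_end_apply, add_sub_cancel]
    have h2 := hw e
    rw [h1, w.map_add_univ, Finset.sum_eq_single_of_mem univ (mem_univ _)] at h2
    · rw [Finset.piecewise_univ, w.map_smul_univ, smul_eq_mul] at h2
      have h3 : (lam - ∏ l, α l) * w e = 0 := by linear_combination -h2
      exact (mul_eq_zero.1 h3).resolve_left (sub_ne_zero.2 hlam)
    · intro s _ hs
      obtain ⟨l₀, hl₀⟩ : ∃ l, l ∉ s := by
        by_contra hcon
        push Not at hcon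
        exact hs (Finset.eq_univ_iff_forall.2 hcon)
      refine ih (∑ l, if l ∈ s then k l else k l - 1) ?_ α (fun l => if l ∈ s then k l else k l - 1)
        _ ?_ rfl hlam
      · rw [← hN]
        refine Finset.sum_lt_sum (fun l _ => ?_) ⟨l₀, mem_univ _, ?_⟩
        · split_ifs
          · exact le_rfl
          · exact Nat.sub_le _ _
        · rw [if_neg hl₀]
          have := h0 l₀
          omega
      · intro l
        by_cases hl : l ∈ s
        · rw [if_pos hl, Finset.piecewise_eq_of_mem _ _ _ hl, map_smul, he l, smul_zero]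
        · rw [if_neg hl, Finset.piecewise_eq_of_notMem _ _ _ hl, ← Module.End.mul_apply,
            ← pow_succ]
          have h4 : k l - 1 + 1 = k l := by
            have := h0 l
            omega
          rw [h4, he l]

/-- The eigenvalues on the multilinear forms are products of eigenvalues. -/
theorem eig_form [CharZero K] [IsAlgClosed K] [FiniteDimensional K E] {H : Subgroup Kˣ} {f : End K E}
    (hf : ∀ β, IsEig f β → ∃ u ∈ H, (u : K) = β) {w : MultilinearMap K (fun _ : ι => E) K}
    (hw0 : w ≠ 0) {lam : K} (hw : ∀ e : ι → E, w (fun l => f (e l)) = lam * w e) :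
    ∃ u ∈ H, (u : K) = lam := by
  classical
  by_contra hcon
  apply hw0
  obtain ⟨J, _, b, β, hb⟩ := exists_genBasis f
  refine Basis.ext_multilinear (fun _ => b) fun I => ?_
  rw [MultilinearMap.zero_apply]
  choose k hk using fun j => mem_gen.1 (hb j)
  refine form_gen_zero hw _ (fun l => β (I l)) (fun l => k (I l)) _ (fun l => hk _) rfl ?_
  intro hlam
  choose u hu hu' using fun j => hf _ (isEig_of_gen (b.ne_zero j) (hb j))
  refine hcon ⟨∏ l, u (I l), Subgroup.prod_mem _ fun l _ => hu _, ?_⟩
  rw [hlam, Units.coe_prod]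
  exact Finset.prod_congr rfl fun l _ => hu' _

/-- The Galois action on the multilinear forms, twisted. -/
noncomputable def formRep (σ : Representation K Γ E) (χ : Γ →* K) (ι : Type) (m : ℕ) :
    Representation K Γ (MultilinearMap K (fun _ : ι => E) K) where
  toFun s := (χ s ^ m) • MultilinearMap.compLinearMapₗ (fun _ => σ s⁻¹)
  map_one' := by
    ext w e
    simp
  map_mul' s t := by
    ext w e
    simp only [LinearMap.smul_apply, MultilinearMap.smul_apply, Module.End.mul_apply,
      MultilinearMap.compLinearMapₗ_apply, MultilinearMap.compLinearMap_apply, smul_eq_mul,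
      map_mul, mul_inv_rev, mul_pow, mul_assoc]

theorem formRep_apply (σ : Representation K Γ E) (χ : Γ →* K) (ι : Type) (m : ℕ) (s : Γ)
    (w : MultilinearMap K (fun _ : ι => E) K) (e : ι → E) :
    formRep σ χ ι m s w e = χ s ^ m * w (fun l => σ s⁻¹ (e l)) := rfl

theorem rep_inv (σ : Representation K Γ E) (s : Γ) (e : E) : σ s⁻¹ (σ s e) = e := by
  rw [← Module.End.mul_apply, ← map_mul, inv_mul_cancel, map_one, Module.End.one_apply]

theorem rep_inv' (σ : Representation K Γ E) (s : Γ) (e : E) : σ s (σ s⁻¹ e) = e := by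
  rw [← Module.End.mul_apply, ← map_mul, mul_inv_cancel, map_one, Module.End.one_apply]

theorem contains_form [CharZero K] [IsAlgClosed K] [FiniteDimensional K E] {H : Γ → Subgroup Kˣ}
    {σ : Representation K Γ E} {χ : Γ →* K} (hH : ContainsEigenvalues H χ σ) (ι : Type)
    [Finite ι] (m : ℕ) : ContainsEigenvalues H χ (formRep σ χ ι m) := by
  classical
  have := Fintype.ofFinite ι
  intro F
  refine ⟨(hH F).1, ?_⟩
  rintro β ⟨w, hw0, hw⟩
  obtain ⟨c, hc, hc'⟩ := (hH F).1
  have h1 : ∀ e : ι → E, χ F ^ m * w e = β * w (fun l => σ F (e l)) := by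
    intro e
    have h2 := congrArg (fun w' : MultilinearMap K (fun _ : ι => E) K =>
      w' (fun l => σ F (e l))) hw
    simp only [formRep_apply, rep_inv, MultilinearMap.smul_apply, smul_eq_mul] at h2
    exact h2
  have hβ : β ≠ 0 := by
    intro h0
    apply hw0
    ext e
    have h2 := h1 e
    rw [h0, zero_mul, ← hc'] at h2
    exact (mul_eq_zero.1 h2).resolve_left (pow_ne_zero _ c.ne_zero)
  obtain ⟨u, hu, hu'⟩ := eig_form (H := H F) (hH F).2 hw0 (lam := χ F ^ m * β⁻¹) (fun e => by
    rw [mul_right_comm, h1 e]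
    field_simp)
  refine ⟨c ^ m * u⁻¹, Subgroup.mul_mem _ (Subgroup.pow_mem _ hc m) (Subgroup.inv_mem _ hu), ?_⟩
  rw [Units.val_mul, Units.val_pow_eq_pow_val, hc', Units.val_inv_eq_inv_val, hu', ← hc']
  have h3 := c.ne_zero
  field_simp

end Pool.Agent.Y130.GS
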