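import Pool.Agent.Y130.GS.Pub
import Pool.Agent.Y130.GS.Eig

/-!
# The Tate forms on a product family
-/

set_option linter.unusedSectionVars false

open Module Finset Function

namespace Pool.Agent.Y130.GS

open Pool.Agent.Y130 Pool.Agent.Y130.MT Pool.Agent.TH125.Gal Pool.Agent.H204R3.GP

section gen

variable {K : Type} [Field K] {V : Type} [AddCommGroup V] [Module K V] {E : Type}
  [AddCommGroup E] [Module K E] {Γ : Type} [Group Γ] {G : Type} [Group G]
  {M : Type} [AddCommGroup M] [Module K M]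

theorem finiteIndex_comap (r : G →* Γ) (Δ : Subgroup Γ) [h : Δ.FiniteIndex] :
    (Δ.comap r).FiniteIndex := by
  refine ⟨?_⟩
  rw [Subgroup.index_comap]
  exact (inferInstance : (Δ.subgroupOf r.range).FiniteIndex).index_ne_zero

/-- Tate forms -/
def IsTateForm (τ : Representation K Γ M) (χ : Γ →* K) {S : Type} (m : ℕ)
    (φ : MultilinearMap K (fun _ : S => M) K) : Prop :=
  ∃ Δ : Subgroup Γ, Δ.FiniteIndex ∧ ∀ s ∈ Δ, ∀ v : S → M,
    φ (fun l => τ s (v l)) = χ s ^ m * φ v

/-- the forms with coefficients which are Tate forms for the family -/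
def famForms (ρ' : Representation K G V) (σ : Representation K Γ E) (χ : Γ →* K) (r : G →* Γ)
    (S S' : Type) (m : ℕ) :
    Submodule K (MultilinearMap K (fun _ : S => V) (MultilinearMap K (fun _ : S' => E) K)) where
  carrier := {Ψ | ∃ Δ : Subgroup G, Δ.FiniteIndex ∧ ∀ t ∈ Δ, ∀ (v : S → V) (e : S' → E),
    Ψ (fun l => ρ' t (v l)) (fun l => σ (r t) (e l)) = χ (r t) ^ m * Ψ v e}
  zero_mem' := ⟨⊤, inferInstance, fun t _ v e => by simp⟩
  add_mem' := by
    rintro a b ⟨Δ₁, h1, h1'⟩ ⟨Δ₂, h2, h2'⟩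
    refine ⟨Δ₁ ⊓ Δ₂, inferInstance, fun t ht v e => ?_⟩
    have h3 := h1' t ht.1 v e
    have h4 := h2' t ht.2 v e
    rw [MultilinearMap.add_apply, MultilinearMap.add_apply, h3, h4, MultilinearMap.add_apply,
      MultilinearMap.add_apply, mul_add]
  smul_mem' := by
    rintro c a ⟨Δ₁, h1, h1'⟩
    refine ⟨Δ₁, h1, fun t ht v e => ?_⟩
    rw [MultilinearMap.smul_apply, MultilinearMap.smul_apply, h1' t ht v e,
      MultilinearMap.smul_apply, MultilinearMap.smul_apply, smul_eq_mul, smul_eq_mul,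
      mul_left_comm]

theorem GG_le (ρ : Representation K Γ V) {ρ' : Representation K G V} {σ : Representation K Γ E}
    {χ : Γ →* K} {r : G →* Γ}
    (hpel : ∀ β : V →ₗ[K] V →ₗ[K] K, IsTate2 ρ χ β → IsTate2 ρ' (χ.comp r) β)
    (S S' : Type) (m : ℕ) {Ψ} (hΨ : Ψ ∈ Submodule.span K (GG S ρ (formRep σ χ S' m) χ)) :
    Ψ ∈ famForms ρ' σ χ r S S' m := by
  refine Submodule.span_le.2 ?_ hΨ
  rintro _ ⟨m', e, β, w, hβ, ⟨Δw, hΔw, hw⟩, rfl⟩
  choose Δ hΔ hβ' using fun l => hpel (β l) (hβ l)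
  have h0 : (⨅ l, Δ l).FiniteIndex := Subgroup.finiteIndex_iInf hΔ
  have h0' := finiteIndex_comap r Δw
  refine ⟨(⨅ l, Δ l) ⊓ Δw.comap r, inferInstance, fun t ht v x => ?_⟩
  have h1 : ∀ l, t ∈ Δ l := fun l => (Subgroup.mem_iInf.1 ht.1) l
  have h2 : r t ∈ Δw := ht.2
  have h3 := congrArg (fun w' : MultilinearMap K (fun _ : S' => E) K =>
      w' (fun l => σ (r t) (x l))) (hw _ h2)
  simp only [formRep_apply, rep_inv, MultilinearMap.smul_apply, smul_eq_mul] at h3
  rw [MultilinearMap.smulRight_apply, MultilinearMap.smulRight_apply, prodForm_apply,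
    prodForm_apply, Finset.prod_congr rfl (fun l _ => hβ' l t (h1 l) _ _),
    Finset.prod_mul_distrib, Finset.prod_const, Finset.card_univ, Fintype.card_fin,
    MultilinearMap.smul_apply, MultilinearMap.smul_apply, smul_eq_mul, smul_eq_mul,
    MonoidHom.comp_apply]
  linear_combination (-(∏ l, β l (v (e (l, 0))) (v (e (l, 1))))) * h3

variable {S : Type} [Fintype S] [DecidableEq S]

/-- the part of a form on `V × E` with the given arguments in `V` -/
noncomputable def part (φ : MultilinearMap K (fun _ : S => V × E) K) (s : Finset S) :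
    MultilinearMap K (fun _ : {i // i ∈ s} => V)
      (MultilinearMap K (fun _ : {i // ¬ i ∈ s} => E) K) :=
  (MultilinearMap.compLinearMapₗ (fun _ => LinearMap.inr K V E)).compMultilinearMap
    ((φ.domDomCongr (Equiv.sumCompl (· ∈ s)).symm).currySum.compLinearMap
      (fun _ => LinearMap.inl K V E))

theorem part_apply (φ : MultilinearMap K (fun _ : S => V × E) K) (s : Finset S)
    (v : {i // i ∈ s} → V) (e : {i // ¬ i ∈ s} → E) :
    part φ s v e = φ (fun i => if h : i ∈ s then (v ⟨i, h⟩, 0) else (0, e ⟨i, h⟩)) := by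
  have h1 : part φ s v e = φ (fun i => Sum.elim (fun j => LinearMap.inl K V E (v j))
      (fun j => LinearMap.inr K V E (e j)) ((Equiv.sumCompl (· ∈ s)).symm i)) := rfl
  rw [h1]
  congr 1
  funext i
  by_cases h : i ∈ s
  · rw [dif_pos h, Equiv.sumCompl_symm_apply_of_pos (p := fun j => j ∈ s) h]
    rfl
  · rw [dif_neg h, Equiv.sumCompl_symm_apply_of_neg (p := fun j => j ∈ s) h]
    rfl

theorem eq_sum_part (φ : MultilinearMap K (fun _ : S => V × E) K) (x : S → V × E) :
    φ x = ∑ s : Finset S, part φ s (fun i => (x i).1) (fun i => (x i).2) := by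
  have h1 : x = (fun i => ((x i).1, (0 : E))) + (fun i => ((0 : V), (x i).2)) := by
    funext i
    rw [Pi.add_apply, Prod.mk_add_mk, add_zero, zero_add]
  conv_lhs => rw [h1]
  rw [φ.map_add_univ]
  refine Finset.sum_congr rfl fun s _ => ?_
  rw [part_apply]
  congr 1

theorem part_eqv {ρ : Representation K Γ V} {σ : Representation K Γ E} {χ : Γ →* K} {m : ℕ}
    {φ : MultilinearMap K (fun _ : S => V × E) K} (hφ : IsTateForm (ρ.prod σ) χ m φ)
    (s : Finset S) : Eqv ρ (formRep σ χ {i // ¬ i ∈ s} m) (part φ s) := by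
  obtain ⟨Δ, hΔ, h⟩ := hφ
  refine ⟨Δ, hΔ, fun g hg v => ?_⟩
  ext e
  rw [formRep_apply, part_apply, part_apply, ← h g hg]
  congr 1
  funext i
  by_cases hi : i ∈ s
  · rw [dif_pos hi, dif_pos hi]
    change _ = (ρ g (v ⟨i, hi⟩), σ g 0)
    rw [map_zero]
  · rw [dif_neg hi, dif_neg hi]
    change _ = (ρ g 0, σ g (σ g⁻¹ (e ⟨i, hi⟩)))
    rw [map_zero, rep_inv']

end gen

variable {K : Type} [Field K] [CharZero K] {T : Type} [AddCommGroup T]
  [Module K T] [FiniteDimensional K T] {V : Type}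
  [AddCommGroup V] [Module K V] [FiniteDimensional K V] {E : Type} [AddCommGroup E] [Module K E]
  [FiniteDimensional K E] {Γ : Type} [Group Γ] {C : Type} {χ : Γ →* K}
  {τ : Representation K Γ T} {ρ : Representation K Γ V} {σ : Representation K Γ E}
  {B : T →ₗ[K] T →ₗ[K] K} {U : C → Submodule K T} {star : C → C} {Δ : Subgroup Γ}
  {H : Γ → Subgroup Kˣ}

/-- **The Tate forms at the point are Tate forms for the family.** -/
theorem transfer [IsAlgClosed K] [Finite C] (hdom : SummandOfCopies τ ρ)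
    (h : IsolatedBlocks τ χ B U star Δ H) (hH : ContainsEigenvalues H χ σ)
    {Y : Subvariety (ρ.prod σ) χ} (hY : IsProductFamily ρ σ χ Y) {S : Type} [Fintype S]
    {m : ℕ} {φ : MultilinearMap K (fun _ : S => V × E) K}
    (hφ : IsTateForm (ρ.prod σ) χ m φ) : IsTateForm Y.rep Y.mult m φ := by
  classical
  obtain ⟨Γ', hΓ', ρ', r, hrep, hmult, hpel⟩ := hY
  rw [hmult] at hpel
  have h1 : ∀ s : Finset S, part φ s ∈ famForms ρ' σ χ r {i // i ∈ s} {i // ¬ i ∈ s} m :=
    fun s => GG_le ρ hpel _ _ m (forms_V hdom h (contains_form hH _ m) (part_eqv hφ s))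
  choose Δ' hΔ' h2 using h1
  have h0 : (⨅ s, Δ' s).FiniteIndex := Subgroup.finiteIndex_iInf hΔ'
  refine ⟨(⨅ s, Δ' s).map Γ'.subtype, ⟨?_⟩, ?_⟩
  · rw [Subgroup.index_map_subtype]
    exact mul_ne_zero h0.index_ne_zero hΓ'.index_ne_zero
  · rintro _ ⟨t, ht, rfl⟩ x
    rw [eq_sum_part, eq_sum_part φ x, Finset.mul_sum]
    refine Finset.sum_congr rfl fun s _ => ?_
    have h3 := h2 s t ((Subgroup.mem_iInf.1 ht) s) (fun i => (x i).1) (fun i => (x i).2)
    have h6 : Y.mult (Γ'.subtype t) = χ (r t) :=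
      congrArg (fun f : Γ' →* K => f t) hmult
    rw [h6, ← h3]
    have h5 : ∀ i, Y.rep (Γ'.subtype t) (x i) = (ρ' t (x i).1, σ (r t) (x i).2) := fun i =>
      congrArg (fun f : Representation K Γ' (V × E) => f t (x i)) hrep
    simp only [h5]

end Pool.Agent.Y130.GS
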