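import Pool.Agent.Y130.MT.Final

/-!
# Galois special points: definitions
-/

set_option linter.unusedSectionVars false

open Module

namespace Pool.Agent.Y130.GS

open Pool.Agent.Y130.MT Pool.Agent.H204R3.GP

variable {K : Type} [Field K] {M : Type} [AddCommGroup M] [Module K M] {V : Type}
  [AddCommGroup V] [Module K V] {E : Type} [AddCommGroup E] [Module K E] {Γ : Type} [Group Γ]

/-- The value of the polynomial `P` in the matrix entries of the endomorphism `f` of `M` (for the
basis `Module.finBasis K M` of `M`). -/
noncomputable def evalAt [FiniteDimensional K M]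
    (P : MvPolynomial (Fin (finrank K M) × Fin (finrank K M)) K) (f : M →ₗ[K] M) : K :=
  MvPolynomial.eval (fun i => (finBasis K M).repr (f (finBasis K M i.2)) i.1) P

/-- The identity component of the Zariski closure of the image of the representation `τ`: the
automorphisms `g` of `M` which are in the Zariski closure of the image of each subgroup of finite
index. -/
def monodromy [FiniteDimensional K M] (τ : Representation K Γ M) : Set (M ≃ₗ[K] M) :=
  {g | ∀ Δ : Subgroup Γ, Δ.FiniteIndex → ∀ P, (∀ s ∈ Δ, evalAt P (τ s) = 0) →
    evalAt P (g : M →ₗ[K] M) = 0}

/-- The tensor powers of the dual of `M` (the spaces of multilinear forms on `M`) are semisimple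
representations of each subgroup of finite index. -/
def TensorSemisimple (τ : Representation K Γ M) : Prop :=
  ∀ (n : ℕ) (Δ : Subgroup Γ), Δ.FiniteIndex →
    ∀ Q : Submodule K (MultilinearMap K (fun _ : Fin n => M) K),
    (∀ s ∈ Δ, ∀ φ ∈ Q, φ.compLinearMap (fun _ => τ s) ∈ Q) →
    ∃ Q' : Submodule K (MultilinearMap K (fun _ : Fin n => M) K),
      (∀ s ∈ Δ, ∀ φ ∈ Q', φ.compLinearMap (fun _ => τ s) ∈ Q') ∧ IsCompl Q Q'

/-- There is a nondegenerate bilinear form on `M` with the multiplier `χ` (a polarization). -/
def Polarized (τ : Representation K Γ M) (χ : Γ →* K) : Prop :=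
  ∃ ω : M →ₗ[K] M →ₗ[K] K, (∀ x, (∀ y, ω x y = 0) → x = 0) ∧
    ∀ s x y, ω (τ s x) (τ s y) = χ s * ω x y

/-- The representation `ρ` is a direct summand of a sum of copies of a representation `T` which
satisfies the condition `IsolatedBlocks` on isolated Frobenius eigenvalues, relative to groups `H F`
which contain `χ F` and the eigenvalues of `σ F`. -/
def IsolatedRelativeTo (ρ : Representation K Γ V) (σ : Representation K Γ E) (χ : Γ →* K) : Prop :=
  ∃ (T : Type) (_ : AddCommGroup T) (_ : Module K T) (_ : FiniteDimensional K T)
    (τ : Representation K Γ T) (B : T →ₗ[K] T →ₗ[K] K) (C : Type) (_ : Finite C)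
    (U : C → Submodule K T) (star : C → C) (Δ : Subgroup Γ) (H : Γ → Subgroup Kˣ),
    SummandOfCopies τ ρ ∧ ContainsEigenvalues H χ σ ∧ IsolatedBlocks τ χ B U star Δ H

/-- The Galois data of a closed irreducible subvariety `Y` of `𝒜_g` through the point `x`, where `τ`
and `χ` are the representation of the Galois group `Γ` of a field of definition of `x` on
`M = H^1(A_x)` and the cyclotomic character: the dimension of `Y`, the Galois group `Gal` of the
function field of `Y` with its representation `rep` on `H^1` of the generic abelian variety, which is
identified with `M` by specialization, its cyclotomic character `mult`, and the decomposition group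
`dec` of `x`, which is mapped by `sp` onto a subgroup of finite index of `Γ` and which acts through
`sp`. -/
structure Subvariety (τ : Representation K Γ M) (χ : Γ →* K) where
  dim : ℕ
  Gal : Type
  [group : Group Gal]
  rep : Representation K Gal M
  mult : Gal →* K
  dec : Subgroup Gal
  sp : dec →* Γ
  index : sp.range.FiniteIndex
  rep_dec : ∀ s : dec, rep s = τ (sp s)
  mult_dec : ∀ s : dec, mult s = χ (sp s)

attribute [instance] Subvariety.group

/-- The point is `ℓ`-Galois special: no subvariety of positive dimension through the point, among the
set `𝒴` of all closed irreducible subvarieties, has the same group. -/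
def IsGaloisSpecial [FiniteDimensional K M] (τ : Representation K Γ M) (χ : Γ →* K)
    (𝒴 : Set (Subvariety τ χ)) : Prop :=
  ∀ Y ∈ 𝒴, 0 < Y.dim → monodromy Y.rep ≠ monodromy τ

/-- The abelian variety `A_x` is isogenous to `B × D`, and the representation `υ` with the cyclotomic
character `μ` is the representation on `H^1` of the product of an abelian variety `B'` and of the
constant abelian variety `D` (on whose `H^1` the group `G` acts through its restriction `r` to the
field of definition of `D`), where `B` is the specialization of `B'` and all endomorphisms of `B`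
extend to `B'` (in the form: the bilinear Tate forms on `H^1(B)` remain Tate forms). -/
def IsProductWithConstant {G : Type} [Group G] (ρ : Representation K Γ V)
    (σ : Representation K Γ E) (χ : Γ →* K) (υ : Representation K G (V × E)) (μ : G →* K) : Prop :=
  ∃ (ρ' : Representation K G V) (r : G →* Γ), υ = ρ'.prod (σ.comp r) ∧ μ = χ.comp r ∧
    ∀ β : V →ₗ[K] V →ₗ[K] K, IsTate2 ρ χ β → IsTate2 ρ' μ β

/-- The restriction of a representation to a subgroup. -/
def resRep {G : Type} [Group G] (υ : Representation K G M) (Γ' : Subgroup G) :
    Representation K Γ' M := υ.comp Γ'.subtype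

/-- The restriction of a character to a subgroup. -/
def resChar {G : Type} [Group G] (μ : G →* K) (Γ' : Subgroup G) : Γ' →* K := μ.comp Γ'.subtype

/-- Over a finite cover of `Y` (which corresponds to a subgroup `Γ'` of finite index of the Galois
group) the universal abelian scheme is isogenous to the product of an abelian scheme with the fibre
`B` at `x`, to which all endomorphisms of `B` extend, and of the constant abelian variety `D`. -/
def IsProductFamily (ρ : Representation K Γ V) (σ : Representation K Γ E) (χ : Γ →* K)
    (Y : Subvariety (ρ.prod σ) χ) : Prop :=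
  ∃ Γ' : Subgroup Y.Gal, Γ'.FiniteIndex ∧
    IsProductWithConstant ρ σ χ (resRep Y.rep Γ') (resChar Y.mult Γ')

end Pool.Agent.Y130.GS
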