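import Pool.Agent.Y130.GS.Fam

/-!
# The Zariski closure and Tate forms
-/

set_option linter.unusedSectionVars false

open Module Finset Function

namespace Pool.Agent.Y130.GS

open Pool.Agent.Y130 Pool.Agent.H204R3.GP Pool.Agent.H204R3.SP

section compl

variable {K : Type} [Field K] {I : Type} [Fintype I] [DecidableEq I] {N : I → Type}
  [∀ i, AddCommGroup (N i)] [∀ i, Module K (N i)] {O : Type}

/-- Complements in a product. -/
theorem exists_compl_aux (op : O → ∀ i, N i →ₗ[K] N i)
    (h : ∀ i, ∀ Q : Submodule K (N i), (∀ o, ∀ x ∈ Q, op o i x ∈ Q) →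
      ∃ C : Submodule K (N i), (∀ o, ∀ x ∈ C, op o i x ∈ C) ∧ IsCompl Q C)
    (Q : Submodule K (∀ i, N i)) (hQ : ∀ o, ∀ x ∈ Q, (fun i => op o i (x i)) ∈ Q)
    (S : Finset I) :
    ∃ C : Submodule K (∀ i, N i), (∀ o, ∀ x ∈ C, (fun i => op o i (x i)) ∈ C) ∧
      Disjoint Q C ∧ ∀ i ∈ S, LinearMap.range (LinearMap.single K N i) ≤ Q ⊔ C := by
  induction S using Finset.induction_on with
  | empty =>
    refine ⟨⊥, fun o x hx => ?_, disjoint_bot_right, fun i hi => absurd hi (notMem_empty _)⟩
    rw [(Submodule.mem_bot K).1 hx, Submodule.mem_bot]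
    funext i
    exact map_zero _
  | insert j S _ ih =>
    obtain ⟨C₁, hC₁, hd, hS⟩ := ih
    have hst : ∀ o, ∀ x ∈ Q ⊔ C₁, (fun i => op o i (x i)) ∈ Q ⊔ C₁ := by
      intro o x hx
      obtain ⟨a, ha, b, hb, rfl⟩ := Submodule.mem_sup.1 hx
      have h1 : (fun i => op o i ((a + b) i)) = (fun i => op o i (a i)) +
          (fun i => op o i (b i)) := by
        funext i
        exact map_add _ _ _
      rw [h1]
      exact Submodule.add_mem_sup (hQ o a ha) (hC₁ o b hb)
    have hsingle : ∀ o (y : N j), (fun i => op o i (LinearMap.single K N j y i)) =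
        LinearMap.single K N j (op o j y) := by
      intro o y
      funext i
      by_cases hi : i = j
      · subst hi
        simp
      · simp [hi]
    obtain ⟨C, hC, hCc⟩ := h j ((Q ⊔ C₁).comap (LinearMap.single K N j)) (by
      intro o x hx
      rw [Submodule.mem_comap, ← hsingle]
      exact hst o _ hx)
    refine ⟨C₁ ⊔ C.map (LinearMap.single K N j), ?_, ?_, ?_⟩
    · intro o x hx
      obtain ⟨a, ha, b, ⟨c, hc, rfl⟩, rfl⟩ := Submodule.mem_sup.1 hx
      have h1 : (fun i => op o i ((a + LinearMap.single K N j c) i)) = (fun i => op o i (a i)) +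
          (fun i => op o i (LinearMap.single K N j c i)) := by
        funext i
        exact map_add _ _ _
      rw [h1, hsingle]
      exact Submodule.add_mem_sup (hC₁ o a ha) ⟨_, hC o c hc, rfl⟩
    · rw [Submodule.disjoint_def]
      intro x hx hx'
      obtain ⟨a, ha, b, ⟨c, hc, rfl⟩, rfl⟩ := Submodule.mem_sup.1 hx'
      have h1 : LinearMap.single K N j c ∈ Q ⊔ C₁ := by
        have h2 : LinearMap.single K N j c = (a + LinearMap.single K N j c) + (-a) := by abel
        rw [h2]
        exact Submodule.add_mem_sup hx (C₁.neg_mem ha)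
      have h2 : c = 0 := Submodule.disjoint_def.1 hCc.disjoint c h1 hc
      rw [h2, map_zero, add_zero] at hx ⊢
      exact Submodule.disjoint_def.1 hd a hx ha
    · intro i hi
      rcases Finset.mem_insert.1 hi with rfl | hi
      · rintro _ ⟨y, rfl⟩
        obtain ⟨p, hp, c, hc, rfl⟩ := Submodule.mem_sup.1
          (show y ∈ ((Q ⊔ C₁).comap (LinearMap.single K N i)) ⊔ C by
            rw [hCc.sup_eq_top]; trivial)
        rw [map_add]
        refine Submodule.add_mem _ ?_ ?_
        · exact (sup_le_sup_left le_sup_left Q) hp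
        · exact Submodule.mem_sup_right (Submodule.mem_sup_right ⟨c, hc, rfl⟩)
      · exact (hS i hi).trans (sup_le_sup_left le_sup_left Q)

theorem exists_compl (op : O → ∀ i, N i →ₗ[K] N i)
    (h : ∀ i, ∀ Q : Submodule K (N i), (∀ o, ∀ x ∈ Q, op o i x ∈ Q) →
      ∃ C : Submodule K (N i), (∀ o, ∀ x ∈ C, op o i x ∈ C) ∧ IsCompl Q C)
    (Q : Submodule K (∀ i, N i)) (hQ : ∀ o, ∀ x ∈ Q, (fun i => op o i (x i)) ∈ Q) :
    ∃ C : Submodule K (∀ i, N i), (∀ o, ∀ x ∈ C, (fun i => op o i (x i)) ∈ C) ∧ IsCompl Q C := by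
  obtain ⟨C, hC, hd, hS⟩ := exists_compl_aux op h Q hQ univ
  refine ⟨C, hC, hd, codisjoint_iff.2 (top_le_iff.1 ?_)⟩
  rw [← LinearMap.iSup_range_single K N]
  exact iSup_le fun i => hS i (mem_univ i)

end compl

variable {K : Type} [Field K] {M : Type} [AddCommGroup M] [Module K M] [FiniteDimensional K M]
  {Γ : Type} [Group Γ] {G : Type} [Group G]

/-- Polynomials in the matrix entries and multilinear forms. -/
theorem exists_forms (P : MvPolynomial (Fin (finrank K M) × Fin (finrank K M)) K) :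
    ∃ (I : Type) (_ : Fintype I) (d : I → ℕ)
      (ψ : ∀ i, MultilinearMap K (fun _ : Fin (d i) => M) K) (v : ∀ i, Fin (d i) → M),
      ∀ f : M →ₗ[K] M, evalAt P f = ∑ i, ψ i (fun l => f (v i l)) := by
  induction P using MvPolynomial.induction_on with
  | C a =>
    refine ⟨Unit, inferInstance, fun _ => 0, fun _ => MultilinearMap.constOfIsEmpty K _ a,
      fun _ => Fin.elim0, fun f => ?_⟩
    simp [evalAt]
  | add P Q hP hQ =>
    obtain ⟨I, _, d, ψ, v, h⟩ := hP
    obtain ⟨I', _, d', ψ', v', h'⟩ := hQ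
    refine ⟨I ⊕ I', inferInstance, Sum.elim d d', fun | .inl i => ψ i | .inr i => ψ' i,
      fun | .inl i => v i | .inr i => v' i, fun f => ?_⟩
    rw [Fintype.sum_sum_type]
    have h1 : evalAt (P + Q) f = evalAt P f + evalAt Q f := map_add _ _ _
    rw [h1, h, h']
    rfl
  | mul_X P j hP =>
    obtain ⟨I, _, d, ψ, v, h⟩ := hP
    refine ⟨I, inferInstance, fun i => d i + 1,
      fun i => (LinearMap.smulRight ((finBasis K M).coord j.1) (ψ i)).uncurryLeft,
      fun i => Fin.cons (finBasis K M j.2) (v i), fun f => ?_⟩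
    have h1 : evalAt (P * MvPolynomial.X j) f = evalAt P f *
        (finBasis K M).repr (f (finBasis K M j.2)) j.1 := by
      unfold evalAt
      rw [map_mul, MvPolynomial.eval_X]
    rw [h1, h, Finset.sum_mul]
    refine Finset.sum_congr rfl fun i _ => ?_
    rw [LinearMap.uncurryLeft_apply, LinearMap.smulRight_apply, MultilinearMap.smul_apply,
      smul_eq_mul, mul_comm]
    rfl

/-- products of linear forms `ω u_l` -/
noncomputable def theta (ω : M →ₗ[K] M →ₗ[K] K) (n : ℕ) :
    MultilinearMap K (fun _ : Fin n => M) (MultilinearMap K (fun _ : Fin n => M) K) :=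
  (LinearMap.applyₗ (MultilinearMap.mkPiAlgebra K (Fin n) K)).compMultilinearMap
    (MultilinearMap.compLinearMapMultilinear.compLinearMap (fun _ => ω))

theorem theta_apply (ω : M →ₗ[K] M →ₗ[K] K) (n : ℕ) (u x : Fin n → M) :
    theta ω n u x = ∏ l, ω (u l) (x l) := rfl

/-- the products of linear forms span -/
theorem theta_span (ω : M →ₗ[K] M →ₗ[K] K) (hnd : ∀ x, (∀ y, ω x y = 0) → x = 0) (n : ℕ) :
    Submodule.span K (Set.range (theta ω n)) = ⊤ := by
  classical
  have hinj : Function.Injective ω := by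
    rw [injective_iff_map_eq_zero]
    intro u hu
    exact hnd u fun v => by rw [hu]; rfl
  let eqv : M ≃ₗ[K] (M →ₗ[K] K) := LinearMap.linearEquivOfInjective ω hinj
    (Subspace.dual_finrank_eq (K := K) (V := M)).symm
  rw [eq_top_iff]
  intro φ _
  let b := finBasis K M
  have h1 : φ = ∑ r : Fin n → Fin (finrank K M), φ (fun l => b (r l)) •
      theta ω n (fun l => eqv.symm (b.coord (r l))) := by
    refine Basis.ext_multilinear (fun _ => b) fun s => ?_
    rw [MultilinearMap.sum_apply, Finset.sum_eq_single s]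
    · rw [MultilinearMap.smul_apply, theta_apply]
      have h2 : ∀ l, ω (eqv.symm (b.coord (s l))) (b (s l)) = 1 := by
        intro l
        have h3 : ω (eqv.symm (b.coord (s l))) = b.coord (s l) := eqv.apply_symm_apply _
        rw [h3, Basis.coord_apply, Basis.repr_self, Finsupp.single_eq_same]
      rw [Finset.prod_congr rfl (fun l _ => h2 l), Finset.prod_const_one, smul_eq_mul, mul_one]
    · intro r _ hr
      obtain ⟨l, hl⟩ := Function.ne_iff.1 hr
      rw [MultilinearMap.smul_apply, theta_apply, Finset.prod_eq_zero (mem_univ l), smul_zero]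
      have h3 : ω (eqv.symm (b.coord (r l))) = b.coord (r l) := eqv.apply_symm_apply _
      rw [h3, Basis.coord_apply, Basis.repr_self, Finsupp.single_eq_of_ne]
      exact hl
    · intro h
      exact absurd (mem_univ s) h
  rw [h1]
  exact Submodule.sum_mem _ fun r _ => Submodule.smul_mem _ _ (Submodule.subset_span ⟨_, rfl⟩)

/-- An equivariant map between spaces of forms at the point is equivariant for the family. -/
theorem hom_transfer {τ : Representation K Γ M} {χ : Γ →* K} {τ' : Representation K G M}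
    {χ' : G →* K} (ω : M →ₗ[K] M →ₗ[K] K) (hnd : ∀ x, (∀ y, ω x y = 0) → x = 0)
    (hω : ∀ s x y, ω (τ s x) (τ s y) = χ s * ω x y)
    (htr : ∀ (S : Type) [Fintype S] (m : ℕ) (φ : MultilinearMap K (fun _ : S => M) K),
      IsTateForm τ χ m φ → IsTateForm τ' χ' m φ)
    {p q : ℕ} (e : MultilinearMap K (fun _ : Fin p => M) K →ₗ[K]
      MultilinearMap K (fun _ : Fin q => M) K) (Δ : Subgroup Γ) (hΔ : Δ.FiniteIndex)
    (he : ∀ s ∈ Δ, ∀ φ, e (φ.compLinearMap (fun _ => τ s)) =
      (e φ).compLinearMap (fun _ => τ s)) :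
    ∃ Δ' : Subgroup G, Δ'.FiniteIndex ∧ ∀ s ∈ Δ', ∀ φ, e (φ.compLinearMap (fun _ => τ' s)) =
      (e φ).compLinearMap (fun _ => τ' s) := by
  -- the form `ω`
  obtain ⟨Δ₁, hΔ₁, h1⟩ := htr (Fin 2) 1 (bil2 ω) ⟨⊤, inferInstance, fun s _ v => by
    rw [bil2_apply, bil2_apply, hω, pow_one]⟩
  have h1' : ∀ s ∈ Δ₁, ∀ x y, ω (τ' s x) (τ' s y) = χ' s * ω x y := by
    intro s hs x y
    have h2 := h1 s hs ![x, y]
    rw [bil2_apply, bil2_apply, pow_one] at h2
    exact h2
  have hth : ∀ {G' : Type} [Group G'] (τ' : Representation K G' M) (χ' : G' →* K) (s : G'),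
      (∀ x y, ω (τ' s x) (τ' s y) = χ' s * ω x y) → ∀ u : Fin p → M,
      (theta ω p (fun l => τ' s (u l))).compLinearMap (fun _ => τ' s) =
        χ' s ^ p • theta ω p u := by
    intro G' _ τ' χ' s hs u
    ext x
    rw [MultilinearMap.compLinearMap_apply, theta_apply, MultilinearMap.smul_apply, theta_apply,
      Finset.prod_congr rfl (fun l _ => hs _ _), Finset.prod_mul_distrib, Finset.prod_const,
      Finset.card_univ, Fintype.card_fin, smul_eq_mul]
  let Φ : MultilinearMap K (fun _ : Fin p ⊕ Fin q => M) K :=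
    MultilinearMap.uncurrySum (e.compMultilinearMap (theta ω p))
  have hΦ : ∀ x : Fin p ⊕ Fin q → M, Φ x = e (theta ω p (fun l => x (Sum.inl l)))
      (fun l => x (Sum.inr l)) := fun x => rfl
  obtain ⟨Δ₂, hΔ₂, h2⟩ := htr (Fin p ⊕ Fin q) p Φ ⟨Δ, hΔ, fun s hs x => by
    rw [hΦ, hΦ]
    have h3 := congrArg (fun f : MultilinearMap K (fun _ : Fin q => M) K =>
      f (fun l => x (Sum.inr l))) (he s hs (theta ω p (fun l => τ s (x (Sum.inl l)))))
    rw [hth τ χ s (hω s), map_smul] at h3
    exact h3.symm⟩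
  refine ⟨Δ₁ ⊓ Δ₂, inferInstance, fun s hs φ => ?_⟩
  have hφ : φ ∈ Submodule.span K (Set.range (theta ω p)) := by
    rw [theta_span ω hnd]
    trivial
  induction hφ using Submodule.span_induction with
  | mem f hf =>
    obtain ⟨u, rfl⟩ := hf
    have h3 : u = fun l => τ' s (τ' s⁻¹ (u l)) := by
      funext l
      rw [rep_inv']
    rw [h3, hth τ' χ' s (h1' s hs.1), map_smul]
    ext x
    have h4 := h2 s hs.2 (Sum.elim (fun l => τ' s⁻¹ (u l)) x)
    rw [hΦ, hΦ] at h4
    exact h4.symm
  | zero => simp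
  | add a b _ _ ha hb =>
    have h5 : (a + b).compLinearMap (fun _ => τ' s) = a.compLinearMap (fun _ => τ' s) +
      b.compLinearMap (fun _ => τ' s) := rfl
    rw [h5, map_add, ha, hb, map_add]
    rfl
  | smul c a _ ha =>
    have h5 : (c • a).compLinearMap (fun _ => τ' s) = c • a.compLinearMap (fun _ => τ' s) := rfl
    rw [h5, map_smul, ha, map_smul]
    rfl

/-- **The Zariski closure is determined by the Tate forms.** -/
theorem monodromy_le {τ : Representation K Γ M} {χ : Γ →* K} {τ' : Representation K G M}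
    {χ' : G →* K} (ω : M →ₗ[K] M →ₗ[K] K) (hnd : ∀ x, (∀ y, ω x y = 0) → x = 0)
    (hω : ∀ s x y, ω (τ s x) (τ s y) = χ s * ω x y) (hss : TensorSemisimple τ)
    (htr : ∀ (S : Type) [Fintype S] (m : ℕ) (φ : MultilinearMap K (fun _ : S => M) K),
      IsTateForm τ χ m φ → IsTateForm τ' χ' m φ) : monodromy τ' ⊆ monodromy τ := by
  classical
  intro g hg Δ hΔ P hP
  obtain ⟨I, _, d, ψ, v, hψ⟩ := exists_forms P
  let N : I → Type := fun i => MultilinearMap K (fun _ : Fin (d i) => M) K
  -- the ideal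
  let ev : (M →ₗ[K] M) → ((∀ i, N i) →ₗ[K] K) := fun f =>
    { toFun := fun θ => ∑ i, θ i (fun l => f (v i l))
      map_add' := fun a b => by
        rw [← Finset.sum_add_distrib]
        rfl
      map_smul' := fun c a => by
        rw [RingHom.id_apply, Finset.smul_sum]
        rfl }
  let Q : Submodule K (∀ i, N i) := ⨅ s : Δ, LinearMap.ker (ev (τ s))
  let op : Δ → ∀ i, N i →ₗ[K] N i := fun s i => MultilinearMap.compLinearMapₗ (fun _ => τ s)
  have hQ : ∀ o : Δ, ∀ x ∈ Q, (fun i => op o i (x i)) ∈ Q := by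
    intro o x hx
    rw [Submodule.mem_iInf] at hx ⊢
    intro s
    have h1 := hx (o * s)
    rw [LinearMap.mem_ker] at h1 ⊢
    change ∑ i, (x i) (fun l => τ o (τ s (v i l))) = 0
    have h2 : ∑ i, (x i) (fun l => τ ((o * s : Δ) : Γ) (v i l)) = 0 := h1
    rw [← h2]
    refine Finset.sum_congr rfl fun i _ => ?_
    congr 1
    funext l
    rw [Subgroup.coe_mul, map_mul, Module.End.mul_apply]
  obtain ⟨C, hC, hQC⟩ := exists_compl op (fun i Q' hQ' => by
    obtain ⟨C', hC', hc⟩ := hss (d i) Δ hΔ Q' (fun s hs φ hφ => hQ' ⟨s, hs⟩ φ hφ)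
    exact ⟨C', fun o x hx => hC' o o.2 x hx, hc⟩) Q hQ
  -- the projection
  let e : (∀ i, N i) →ₗ[K] (∀ i, N i) := Submodule.projection Q C hQC
  have he : ∀ o : Δ, ∀ x, e (fun i => op o i (x i)) = fun i => op o i (e x i) := by
    intro o x
    obtain ⟨a, ha, b, hb, rfl⟩ := Submodule.mem_sup.1
      (show x ∈ Q ⊔ C by rw [hQC.sup_eq_top]; trivial)
    have h1 : (fun i => op o i ((a + b) i)) = (fun i => op o i (a i)) +
        (fun i => op o i (b i)) := by
      funext i
      exact map_add _ _ _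
    rw [h1, map_add, map_add]
    have h2 : ∀ y ∈ Q, e y = y := fun y hy => Submodule.projection_apply_of_mem_left hQC hy
    have h3 : ∀ y ∈ C, e y = 0 := fun y hy => Submodule.projection_apply_of_mem_right hQC hy
    rw [h2 _ (hQ o a ha), h3 _ (hC o b hb), h2 a ha, h3 b hb, add_zero, add_zero]
  -- the components
  have hcomp : ∀ i j, ∃ Δ' : Subgroup G, Δ'.FiniteIndex ∧ ∀ s ∈ Δ', ∀ φ : N j,
      (LinearMap.proj i ∘ₗ e ∘ₗ LinearMap.single K N j) (φ.compLinearMap (fun _ => τ' s)) =
      ((LinearMap.proj i ∘ₗ e ∘ₗ LinearMap.single K N j) φ).compLinearMap (fun _ => τ' s) := by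
    intro i j
    refine hom_transfer ω hnd hω htr (LinearMap.proj i ∘ₗ e ∘ₗ LinearMap.single K N j) Δ hΔ ?_
    intro s hs φ
    have h1 := congrFun (he ⟨s, hs⟩ (LinearMap.single K N j φ)) i
    have h2 : (fun k => op ⟨s, hs⟩ k (LinearMap.single K N j φ k)) =
        LinearMap.single K N j (φ.compLinearMap (fun _ => τ s)) := by
      funext k
      by_cases hk : k = j
      · subst hk
        simp only [op, LinearMap.single_apply, Pi.single_eq_same]
        rfl
      · simp [hk]
    rw [h2] at h1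
    exact h1
  choose Δ' hΔ' hcomp' using hcomp
  have hfin : (⨅ i, ⨅ j, Δ' i j).FiniteIndex :=
    Subgroup.finiteIndex_iInf fun i => Subgroup.finiteIndex_iInf fun j => hΔ' i j
  refine hg (⨅ i, ⨅ j, Δ' i j) hfin P fun s hs => ?_
  have hs' : ∀ i j, s ∈ Δ' i j := fun i j =>
    (Subgroup.mem_iInf.1 ((Subgroup.mem_iInf.1 hs) i)) j
  -- the ideal is stable
  have hψQ : ψ ∈ Q := by
    rw [Submodule.mem_iInf]
    intro t
    rw [LinearMap.mem_ker]
    change ∑ i, ψ i (fun l => τ t (v i l)) = 0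
    rw [← hψ]
    exact hP t t.2
  have hes : e (fun i => (ψ i).compLinearMap (fun _ => τ' s)) =
      fun i => (e ψ i).compLinearMap (fun _ => τ' s) := by
    have h1 : ∀ x : ∀ i, N i, e x = ∑ j, e (LinearMap.single K N j (x j)) := by
      intro x
      rw [← map_sum]
      congr 1
      funext k
      simp [Finset.sum_apply]
    funext i
    rw [h1, h1 ψ, Finset.sum_apply]
    have h2 : (∑ j, e (LinearMap.single K N j (ψ j))) i =
        ∑ j, (LinearMap.proj i ∘ₗ e ∘ₗ LinearMap.single K N j) (ψ j) := by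
      rw [Finset.sum_apply]
      rfl
    rw [h2]
    have h3 : (∑ j, (LinearMap.proj i ∘ₗ e ∘ₗ LinearMap.single K N j) (ψ j)).compLinearMap
        (fun _ => τ' s) = ∑ j, ((LinearMap.proj i ∘ₗ e ∘ₗ LinearMap.single K N j)
          (ψ j)).compLinearMap (fun _ => τ' s) := by
      ext x
      rw [MultilinearMap.compLinearMap_apply, MultilinearMap.sum_apply, MultilinearMap.sum_apply]
      rfl
    rw [h3]
    exact Finset.sum_congr rfl fun j _ => hcomp' i j s (hs' i j) (ψ j)
  have heψ : e ψ = ψ := Submodule.projection_apply_of_mem_left hQC hψQ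
  rw [heψ] at hes
  have h4 : (fun i => (ψ i).compLinearMap (fun _ => τ' s)) ∈ Q := by
    rw [← hes]
    exact Submodule.projection_apply_mem hQC _
  have h5 := (Submodule.mem_iInf _).1 h4 1
  rw [LinearMap.mem_ker] at h5
  rw [hψ]
  have h6 : ∑ i, ψ i (fun l => τ' s (τ ((1 : Δ) : Γ) (v i l))) = 0 := h5
  rw [← h6]
  refine Finset.sum_congr rfl fun i _ => ?_
  congr 1
  funext l
  rw [Subgroup.coe_one, map_one, Module.End.one_apply]

end Pool.Agent.Y130.GS
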